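import Pool.Agent.Helper47.Kneser.PCol

/-!
# Kneser versus Schrijver homomorphisms of hyperfinite Borel 3-regular forests

The question whether every hyperfinite Borel 3-regular forest has Borel fractional chromatic
number 2 (homomorphisms to Kneser graphs) is equivalent to its version for Schrijver graphs, with
parameters uniform over all forests and for all large `k`, and to the existence, for every
`ε > 0`, of finitely many Borel partial proper 2-colourings leaving every vertex uncoloured in at
most an `ε`-fraction of them.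
-/

set_option autoImplicit false

open Pool.Agent.Helper47.Kneser

namespace Pool.Agent.Results.MP_0e746a_lc.KneserSchrijver

/-- The three statements are equivalent:
(1) every hyperfinite Borel 3-regular forest has, for every `ε > 0`, a Borel homomorphism to a
Kneser graph `K(n,k)` with `n < (2+ε)k`;
(2) for every `ε > 0` and every large `k` there is `n < (2+ε)k` such that every hyperfinite Borel
3-regular forest has a Borel homomorphism to the Schrijver graph `K'(n,k)`;
(3) for every `ε > 0` there is `N ≥ 1` such that every hyperfinite Borel 3-regular forest has `N`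
Borel partial proper 2-colourings with every vertex uncoloured in at most `ε N` of them. -/
theorem result :
    List.TFAE [
      ∀ (X : Type) [MeasurableSpace X] [StandardBorelSpace X] (G : SimpleGraph X),
        IsHFForest X G → ∀ ε : ℝ, 0 < ε → ∃ n k : ℕ, 0 < k ∧ (n : ℝ) < (2 + ε) * (k : ℝ) ∧
          KneserHom G n k,
      ∀ ε : ℝ, 0 < ε → ∃ k0 : ℕ, ∀ k ≥ k0, ∃ n : ℕ, (n : ℝ) < (2 + ε) * (k : ℝ) ∧
        ∀ (X : Type) [MeasurableSpace X] [StandardBorelSpace X] (G : SimpleGraph X),
          IsHFForest X G → SchrijverHom G n k,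
      ∀ ε : ℝ, 0 < ε → ∃ N : ℕ, 0 < N ∧
        ∀ (X : Type) [MeasurableSpace X] [StandardBorelSpace X] (G : SimpleGraph X),
          IsHFForest X G → PartialTwoColourings G N ε] := by
  tfae_have 1 → 2 := by
    intro hQ ε hε
    obtain ⟨n, k, hk, hn, h⟩ := uniform_kneser hQ (min (ε / 4) (1 / 4)) (by positivity)
    obtain ⟨k0, hk0⟩ := parameters n k ε (min (ε / 4) (1 / 4)) (by positivity)
      (min_le_right _ _) (by have := min_le_left (ε / 4) (1 / 4); linarith) hk hn
    refine ⟨k0, fun k' hk' => ?_⟩
    obtain ⟨m, hm, h1, h2⟩ := hk0 k' hk'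
    exact ⟨n * (2 * m), h2, fun X _ _ G hG =>
      recolour G hG.1 hG.2.1 (h X G hG) m k' hm h1⟩
  tfae_have 2 → 1 := by
    intro hS X _ _ G hG ε hε
    obtain ⟨k0, hk0⟩ := hS ε hε
    obtain ⟨n, hn, h⟩ := hk0 (max k0 1) (le_max_left _ _)
    exact ⟨n, max k0 1, by omega, hn, (h X G hG).kneserHom⟩
  tfae_have 1 → 3 := by
    intro hQ ε hε
    obtain ⟨n, k, hk, hn, h⟩ := uniform_kneser hQ (min (ε / 3) 1) (by positivity)
    have hn0 : 0 < n ∨ n = 0 := by omega
    rcases hn0 with hn0 | hn0
    · exact ⟨n, hn0, fun X _ _ G hG => twoCol_of_kneser G hG.1 hG.2.1 hk ε (min (ε / 3) 1) hn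
        (by have := min_le_left (ε / 3) 1; linarith) (by positivity) (h X G hG)⟩
    · refine ⟨1, one_pos, fun X _ _ G hG => ?_⟩
      have hempty : IsEmpty X := by
        by_contra hne
        rw [not_isEmpty_iff] at hne
        obtain ⟨x⟩ := hne
        obtain ⟨f, hf, -, -⟩ := h X G hG
        have h1 := hf x
        subst hn0
        have := Finset.card_le_univ (f x)
        rw [h1, Fintype.card_fin] at this
        omega
      refine ⟨fun _ x => none, fun i s => ?_, fun i x => ?_, fun x => ?_⟩
      · exact (Set.toFinite _).measurableSet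
      · exact hempty.elim x
      · exact hempty.elim x
  tfae_have 3 → 1 := by
    intro hP X _ _ G hG ε hε
    set δ : ℝ := min (ε / 4) (1 / 4) with hδ
    have hδ0 : 0 < δ := by positivity
    have hδ1 : δ ≤ 1 / 4 := min_le_right _ _
    have hδ2 : 4 * δ ≤ ε := by have := min_le_left (ε / 4) (1 / 4); linarith
    obtain ⟨N, hN, h⟩ := hP δ hδ0
    have hNR : (0 : ℝ) < N := by exact_mod_cast hN
    have hpos : 0 < (1 - δ) * N := mul_pos (by linarith) hNR
    have hle : (1 - δ) * N ≤ (⌈(1 - δ) * N⌉₊ : ℝ) := Nat.le_ceil _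
    refine ⟨N * 2, ⌈(1 - δ) * N⌉₊, Nat.ceil_pos.2 hpos, ?_,
      kneser_of_twoCol G (Nat.ceil_lt_add_one hpos.le) (h X G hG)⟩
    have h1 : (2 : ℝ) < (2 + ε) * (1 - δ) := by nlinarith
    have h2 : (N : ℝ) * 2 < (2 + ε) * ((1 - δ) * N) := by nlinarith
    have h3 : (2 + ε) * ((1 - δ) * N) ≤ (2 + ε) * (⌈(1 - δ) * N⌉₊ : ℝ) :=
      mul_le_mul_of_nonneg_left hle (by linarith)
    push_cast
    linarith
  tfae_finish

end Pool.Agent.Results.MP_0e746a_lc.KneserSchrijver
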